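import Pool.Agent.MP_5a7e96_nt.Mg.Main

set_option autoImplicit false

namespace Pool.Agent.Results.MP_5a7e96_nt.PowerSaving

/-- Power saving over the Narkiewicz exponent for powers with restricted digits. The case
`p = 2`, `e = 2`, `a = 3`, `c = 1` or `2`, `D = {1, 2, 3}` is the situation of the problem. -/
theorem result (p e a c : ℕ) (D : Finset ℕ) (hp : p.Prime) (he : 0 < e) (ha : 1 < a)
    (hpa : ¬ p ∣ a) (hc : 0 < c) (hD : D ⊆ Finset.range (p ^ e)) (hd : 2 ≤ D.card) :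
    ∃ C : ℝ, ∀ X : ℕ,
      (({k : ℕ | k < X ∧ ∀ y ∈ Nat.digits (p ^ e) (c * a ^ k), y ∈ D}.ncard : ℕ) : ℝ)
        ≤ C * (X : ℝ) ^ (Real.log ((D.card : ℝ) ^ 2 * (p : ℝ) ^ e)
          / Real.log (((p : ℝ) ^ e) ^ 5 / (D.card : ℝ) ^ 2)) :=
  Pool.Agent.MP_5a7e96_nt.general' hp he D hd hD ha hpa hc

/-- The specialisation to the problem. -/
example : ∃ C : ℝ, ∀ X : ℕ,
    (({k : ℕ | k < X ∧ ¬ (0 ∈ Nat.digits 4 (3 ^ k) ∧ 0 ∈ Nat.digits 4 (2 * 3 ^ k))}.ncard : ℕ) : ℝ)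
      ≤ C * (X : ℝ) ^ (757 / 1000 : ℝ) :=
  Pool.Agent.MP_5a7e96_nt.base_four

end Pool.Agent.Results.MP_5a7e96_nt.PowerSaving
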