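import Pool.Agent.MP_5a7e96_nt.H37.Main

/-- The real numbers `x ≥ 0` such that, for infinitely many `k`, a given block of base `p ^ e`
digits occurs only finitely often in `x * a ^ k` form a set of Hausdorff dimension zero. -/
theorem Pool.Agent.Results.MP_5a7e96_nt.RealExceptional.result (p a e w ω : ℕ) (hp : p.Prime)
    (ha : 2 ≤ a) (hpa : ¬ p ∣ a) (he : 0 < e) (hω : ω < (p ^ e) ^ w) :
    dimH {x : ℝ | 0 ≤ x ∧ {k : ℕ | {j : ℕ |
      ⌊x * (a : ℝ) ^ k * ((p : ℝ) ^ e) ^ j⌋₊ % (p ^ e) ^ w = ω}.Finite}.Infinite} = 0 :=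
  Pool.Agent.MP_5a7e96_nt.H37.real hp ha hpa he hω
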