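import Pool.Agent.MP_5a7e96_nt.Mg.H63_Main

namespace Pool.Agent.Results.MP_5a7e96_nt.ThreeQuarters

open Pool.Agent.MP_5a7e96_nt.H63

/-- In every interval of `X` consecutive exponents there are `O(X ^ 0.746)` exceptions. -/
theorem result : ∃ C : ℝ, ∀ Y X : ℕ,
    (((Finset.Ico Y (Y + X)).filter fun k =>
      ¬ (0 ∈ Nat.digits 4 (3 ^ k) ∧ 0 ∈ Nat.digits 4 (2 * 3 ^ k))).card : ℝ) ≤
      C * (X : ℝ) ^ (0.746 : ℝ) := by
  refine ⟨2 * (600 * (3 ^ 38 / 4 ^ 7)), fun Y X => ?_⟩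
  have h0 := count_le 0 Y X (by norm_num)
  have h1 := count_le 1 Y X le_rfl
  rw [pow_zero] at h0
  rw [pow_one] at h1
  simp only [one_mul] at h0
  rw [mul_assoc, two_mul]
  refine le_trans ?_ (add_le_add h0 h1)
  rw [← Nat.cast_add, Nat.cast_le]
  refine le_trans ?_ (Finset.card_union_le _ _)
  refine Finset.card_le_card_of_injOn (fun k => k - Y) (fun k hk => ?_) fun k hk k' hk' h => ?_
  · obtain ⟨h2, h3⟩ := Finset.mem_filter.1 hk
    obtain ⟨h4, h5⟩ := Finset.mem_Ico.1 h2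
    have h6 : k - Y < X := by omega
    simp only [Finset.mem_coe, Finset.mem_union, Finset.mem_filter, Finset.mem_range,
      Nat.add_sub_cancel' h4]
    tauto
  · have h4 := (Finset.mem_Ico.1 (Finset.mem_filter.1 hk).1).1
    have h5 := (Finset.mem_Ico.1 (Finset.mem_filter.1 hk').1).1
    simp only at h
    omega

end Pool.Agent.Results.MP_5a7e96_nt.ThreeQuarters
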